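import Pool.Agent.H174.GM.Stmts2

/-!
# GM LITREC: recursion for `gg` (Lagrange interpolation identity)
-/

set_option autoImplicit false

namespace Pool.Agent.H21.GM174

open Finset Pool.Agent.H174.GM Polynomial

theorem prod_erase_none {M α : Type*} [CommMonoid M] [Fintype α] [DecidableEq α]
    (F : Option α → M) : ∏ w ∈ univ.erase none, F w = ∏ a, F (some a) := by
  have h : (univ.erase (none : Option α)) = univ.map Function.Embedding.some := by
    ext x; cases x <;> simp
  rw [h, prod_map]
  rfl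

theorem prod_erase_some {M α : Type*} [CommMonoid M] [Fintype α] [DecidableEq α]
    (b : α) (F : Option α → M) :
    ∏ w ∈ univ.erase (some b), F w = F none * ∏ a ∈ univ.erase b, F (some a) := by
  have h : (univ.erase (some b : Option α)) =
      insert none ((univ.erase b).map Function.Embedding.some) := by
    ext x; cases x <;> simp
  rw [h, prod_insert (by simp), prod_map]
  rfl

/-- the partial fraction identity behind LITREC -/
theorem lagr {K : Type*} [Field K] {n : ℕ} (X : Fin n → K) (hinj : Function.Injective X)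
    (h0 : ∀ i, X i ≠ 0) (h1 : ∀ i, 1 + X i ≠ 0) :
    1 - ∏ i, X i = ∑ j, (∏ i, X i) * (∏ i, (1 - X i * X j)) /
      (X j * (1 + X j) * ∏ i ∈ univ.erase j, (X i - X j)) := by
  classical
  set v : Option (Option (Fin n)) → K := fun o => match o with
    | none => 0
    | some none => -1
    | some (some i) => X i with hv
  have hvs : Set.InjOn v (univ : Finset (Option (Option (Fin n)))) := by
    intro a _ b _ hab
    rcases a with _ | _ | a <;> rcases b with _ | _ | b <;> simp [hv] at hab ⊢
    · exact absurd hab.symm (h0 b)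
    · apply h1 b; rw [← hab]; ring
    · exact absurd hab (h0 a)
    · apply h1 a; rw [hab]; ring
    · exact hinj hab
  set f : K[X] := ∏ i, (C 1 - C (X i) * Polynomial.X) with hf
  have hdeg : f.natDegree ≤ n := by
    rw [hf]
    refine (natDegree_prod_le _ _).trans ?_
    refine (Finset.sum_le_card_nsmul _ _ 1 ?_).trans ?_
    · intro i _
      compute_degree
    · simp
  have hcard : (univ : Finset (Option (Option (Fin n)))).card = n + 2 := by simp
  have hdlt : f.degree < (univ : Finset (Option (Option (Fin n)))).card := by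
    refine lt_of_le_of_lt degree_le_natDegree ?_
    rw [hcard]
    exact_mod_cast (by omega : f.natDegree < n + 2)
  have key := Lagrange.coeff_eq_sum hvs hdlt
  rw [hcard, show n + 2 - 1 = n + 1 from rfl,
    coeff_eq_zero_of_natDegree_lt (by omega : f.natDegree < n + 1)] at key
  rw [Fintype.sum_option, Fintype.sum_option] at key
  have hfe : ∀ z : K, f.eval z = ∏ i, (1 - X i * z) := by
    intro z
    rw [hf, eval_prod]
    simp
  have v0 : v none = 0 := rfl
  have v1 : v (some none) = -1 := rfl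
  have v2 : ∀ i, v (some (some i)) = X i := fun i => rfl
  simp only [prod_erase_none, prod_erase_some, Fintype.prod_option, v0, v1, v2, hfe] at key
  set P := ∏ i, X i with hP
  have hP0 : P ≠ 0 := prod_ne_zero_iff.mpr fun i _ => h0 i
  have hQ0 : (∏ i, (1 + X i)) ≠ 0 := prod_ne_zero_iff.mpr fun i _ => h1 i
  have hc0 : ((-1 : K)) ^ n = ∏ _i : Fin n, (-1 : K) := by simp
  have a0 : ∏ i, (1 - X i * (0 : K)) = 1 := by simp
  have a1 : ∏ i, ((0 : K) - X i) = (-1) ^ n * P := by
    rw [hc0, hP, ← prod_mul_distrib]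
    exact prod_congr rfl fun i _ => by ring
  have a2 : ∏ i, (1 - X i * (-1 : K)) = ∏ i, (1 + X i) :=
    prod_congr rfl fun i _ => by ring
  have a3 : ∏ i, (-1 - X i : K) = (-1) ^ n * ∏ i, (1 + X i) := by
    rw [hc0, ← prod_mul_distrib]
    exact prod_congr rfl fun i _ => by ring
  have a4 : ∀ j : Fin n, ∏ i ∈ univ.erase j, (X j - X i) =
      -((-1) ^ n * ∏ i ∈ univ.erase j, (X i - X j)) := by
    intro j
    have : ∏ i ∈ univ.erase j, (X j - X i) = (-1) ^ (n - 1) * ∏ i ∈ univ.erase j, (X i - X j) := by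
      have hc : (univ.erase j).card = n - 1 := by simp
      rw [← hc, ← prod_const, ← prod_mul_distrib]
      exact prod_congr rfl fun i _ => by ring
    rw [this]
    obtain ⟨m, rfl⟩ : ∃ m, n = m + 1 := ⟨n - 1, by have := j.2; omega⟩
    simp only [Nat.add_sub_cancel, pow_succ]
    ring
  rw [a0, a1, a2, a3] at key
  have hs : ((-1 : K) ^ n) ≠ 0 := pow_ne_zero _ (by simp)
  have hs2 : ((-1 : K) ^ n) * (-1) ^ n = 1 := by rw [← mul_pow]; simp
  have t1 : (1 : K) / ((0 - -1) * ((-1) ^ n * P)) = (-1) ^ n / P := by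
    rw [div_eq_div_iff (by simp [hs, hP0]) hP0]
    linear_combination (-P) * hs2
  have t2 : (∏ i, (1 + X i)) / ((-1 - 0) * ((-1) ^ n * ∏ i, (1 + X i))) = -(-1) ^ n := by
    rw [div_eq_iff (by simp [hs, hQ0])]
    linear_combination (-∏ i, (1 + X i)) * hs2
  rw [t1, t2] at key
  have key2 := congrArg (fun t => t * ((-1) ^ n * P)) key
  simp only [zero_mul, add_mul, sum_mul] at key2
  have t3 : (-1 : K) ^ n / P * ((-1) ^ n * P) = 1 := by
    field_simp
    linear_combination hs2
  have t4 : -(-1 : K) ^ n * ((-1) ^ n * P) = -P := by linear_combination (-P) * hs2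
  rw [t3, t4] at key2
  have t5 : ∀ j : Fin n, (∏ i, (1 - X i * X j)) /
      ((X j - 0) * ((X j - -1) * ∏ i ∈ univ.erase j, (X j - X i))) * ((-1) ^ n * P) =
      -(P * (∏ i, (1 - X i * X j)) /
      (X j * (1 + X j) * ∏ i ∈ univ.erase j, (X i - X j))) := by
    intro j
    rw [a4 j]
    have hE : ∏ i ∈ univ.erase j, (X i - X j) ≠ 0 := prod_ne_zero_iff.mpr fun i hi =>
      sub_ne_zero.mpr fun h => (mem_erase.mp hi).1 (hinj h)
    have hj0 := h0 j
    have hj1 := h1 j
    have hj2 : X j + 1 ≠ 0 := by rwa [add_comm]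
    rw [sub_zero, sub_neg_eq_add, div_mul_eq_mul_div, ← neg_div, div_eq_div_iff
      (by simp [hj0, hj2, hE, hs]) (by simp [hj0, hj1, hE])]
    ring
  rw [sum_congr rfl fun j _ => t5 j, sum_neg_distrib] at key2
  linear_combination (-1 : K) * key2

/-- products over the pairs as double products -/
theorem prod_pairs {M : Type*} [CommMonoid M] {k : ℕ} (F : Fin k → Fin k → M) :
    ∏ p ∈ pairs k, F p.1 p.2 = ∏ i, ∏ l, if i < l then F i l else 1 := by
  rw [pairs, prod_filter, ← univ_product_univ, prod_product]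

theorem card_lt {k : ℕ} (j : Fin (k + 1)) :
    (univ.filter fun q : Fin k => j.succAbove q < j).card = j.1 := by
  have h : (univ.filter fun q : Fin k => j.succAbove q < j) =
      univ.filter fun q : Fin k => q.1 < j.1 := by
    ext q
    simp only [mem_filter, mem_univ, true_and]
    rw [Fin.succAbove_lt_iff_castSucc_lt, Fin.lt_def]
    rfl
  rw [h]
  have : (univ.filter fun q : Fin k => q.1 < j.1) =
      (univ : Finset (Fin j.1)).map (Fin.castLEEmb (Nat.lt_succ_iff.mp j.2)) := by
    ext q
    simp only [mem_filter, mem_univ, true_and, mem_map]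
    constructor
    · intro hq
      exact ⟨⟨q.1, hq⟩, rfl⟩
    · rintro ⟨a, rfl⟩
      exact a.2
  rw [this, card_map]
  simp

theorem sign_prod {K : Type*} [Field K] {k : ℕ} (j : Fin (k + 1)) :
    ∏ q : Fin k, (if j.succAbove q < j then (-1 : K) else 1) = (-1) ^ j.1 := by
  rw [prod_ite, prod_const, prod_const_one, mul_one, card_lt]

theorem gg_split {K : Type*} [Field K] {k : ℕ} (X : Fin (k + 1) → K) (j : Fin (k + 1)) :
    gg X = gg (X ∘ j.succAbove) * ((1 - X j)⁻¹ * ((-1) ^ j.1 *
      ∏ q : Fin k, (X (j.succAbove q) - X j) * (1 - X (j.succAbove q) * X j)⁻¹)) := by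
  unfold gg
  rw [prod_pairs (fun a b => (X b - X a) * (1 - X a * X b)⁻¹),
    prod_pairs (fun a b => ((X ∘ j.succAbove) b - (X ∘ j.succAbove) a) *
      (1 - (X ∘ j.succAbove) a * (X ∘ j.succAbove) b)⁻¹)]
  rw [Fin.prod_univ_succAbove _ j, Fin.prod_univ_succAbove _ j, Fin.prod_univ_succAbove _ j,
    prod_congr rfl fun q (_ : q ∈ univ) => Fin.prod_univ_succAbove _ j, prod_mul_distrib,
    if_neg (lt_irrefl j)]
  rw [← sign_prod (K := K) j]
  have h1 : (∏ q : Fin k, if j < j.succAbove q then (X (j.succAbove q) - X j) *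
      (1 - X j * X (j.succAbove q))⁻¹ else 1) *
      (∏ q : Fin k, if j.succAbove q < j then (X j - X (j.succAbove q)) *
      (1 - X (j.succAbove q) * X j)⁻¹ else 1) =
      (∏ q : Fin k, if j.succAbove q < j then (-1 : K) else 1) *
      ∏ q : Fin k, (X (j.succAbove q) - X j) * (1 - X (j.succAbove q) * X j)⁻¹ := by
    rw [← prod_mul_distrib, ← prod_mul_distrib]
    refine prod_congr rfl fun q _ => ?_
    rcases lt_or_gt_of_ne (Fin.succAbove_ne j q) with h | h
    · rw [if_neg (not_lt.mpr h.le), if_pos h, if_pos h]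
      ring
    · rw [if_pos h, if_neg (not_lt.mpr h.le), if_neg (not_lt.mpr h.le),
        mul_comm (X j) (X (j.succAbove q))]
      ring
  have h2 : (∏ q : Fin k, ∏ r : Fin k, if j.succAbove q < j.succAbove r then
      (X (j.succAbove r) - X (j.succAbove q)) *
        (1 - X (j.succAbove q) * X (j.succAbove r))⁻¹ else 1) =
      ∏ q : Fin k, ∏ r : Fin k, if q < r then
      ((X ∘ j.succAbove) r - (X ∘ j.succAbove) q) *
        (1 - (X ∘ j.succAbove) q * (X ∘ j.succAbove) r)⁻¹ else 1 := by
    refine prod_congr rfl fun q _ => prod_congr rfl fun r _ => ?_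
    by_cases h : q < r
    · rw [if_pos h, if_pos ((Fin.strictMono_succAbove j).lt_iff_lt.mpr h)]
      rfl
    · rw [if_neg h, if_neg fun h' => h ((Fin.strictMono_succAbove j).lt_iff_lt.mp h')]
  rw [h2]
  simp only [Function.comp_apply] at *
  linear_combination ((1 - X j)⁻¹ * (∏ q : Fin k, (1 - X (j.succAbove q))⁻¹) *
    ∏ q : Fin k, ∏ r : Fin k, if q < r then
      (X (j.succAbove r) - X (j.succAbove q)) *
        (1 - X (j.succAbove q) * X (j.succAbove r))⁻¹ else 1) * h1

theorem ai_ne {K : Type*} [Field K] [Algebra ℚ K] {n : ℕ} {X : Fin n → K}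
    (hX : AlgebraicIndependent ℚ X) (p : MvPolynomial (Fin n) ℚ)
    (hp : MvPolynomial.eval 0 p = 1) : MvPolynomial.aeval X p ≠ 0 := by
  intro h
  have h0 : p = 0 := (injective_iff_map_eq_zero _).mp hX p h
  rw [h0, map_zero] at hp
  exact zero_ne_one hp

theorem litrec : Pool.Agent.H174.GM.S_LITREC := by
  intro k K _ _ X hX
  have hinj : Function.Injective X := hX.injective
  have h0 : ∀ i, X i ≠ 0 := fun i => hX.ne_zero i
  have h1 : ∀ i, 1 + X i ≠ 0 := by
    intro i
    have := ai_ne hX (1 + MvPolynomial.X i) (by simp)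
    simpa using this
  have h2 : ∀ i, 1 - X i ≠ 0 := by
    intro i
    have := ai_ne hX (1 - MvPolynomial.X i) (by simp)
    simpa using this
  have h3 : ∀ i j, 1 - X i * X j ≠ 0 := by
    intro i j
    have := ai_ne hX (1 - MvPolynomial.X i * MvPolynomial.X j) (by simp)
    simpa using this
  rw [lagr X hinj h0 h1, sum_mul]
  refine sum_congr rfl fun j _ => ?_
  rw [gg_split X j]
  have hP : ∏ i, X i = X j * ∏ q, X (j.succAbove q) := Fin.prod_univ_succAbove _ j
  have hQ : ∏ i, (1 - X i * X j) = (1 - X j * X j) * ∏ q, (1 - X (j.succAbove q) * X j) :=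
    Fin.prod_univ_succAbove _ j
  have hE : ∏ i ∈ univ.erase j, (X i - X j) = ∏ q, (X (j.succAbove q) - X j) := by
    have : (univ.erase j : Finset (Fin (k + 1))) = univ.map j.succAboveEmb := by
      ext i
      simp only [mem_erase, mem_univ, and_true, mem_map, true_and]
      constructor
      · intro h
        obtain ⟨q, hq⟩ := Fin.exists_succAbove_eq h
        exact ⟨q, hq⟩
      · rintro ⟨q, rfl⟩
        exact Fin.succAbove_ne j q
    rw [this, prod_map]
    rfl
  rw [hP, hQ, hE, prod_mul_distrib, prod_inv_distrib]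
  have e1 : ∏ q, (X (j.succAbove q) - X j) ≠ 0 := prod_ne_zero_iff.mpr fun q _ =>
    sub_ne_zero.mpr fun h => Fin.succAbove_ne j q (hinj h)
  have e2 : ∏ q, (1 - X (j.succAbove q) * X j) ≠ 0 := prod_ne_zero_iff.mpr fun q _ => h3 _ _
  have e3 := h0 j
  have e4 := h1 j
  have e5 := h2 j
  generalize gg (X ∘ j.succAbove) = G
  generalize ∏ q, (X (j.succAbove q) - X j) = A at *
  generalize ∏ q, (1 - X (j.succAbove q) * X j) = B at *
  generalize ∏ q, X (j.succAbove q) = Q
  have hs2 : ((-1 : K) ^ j.1) * (-1) ^ j.1 = 1 := by rw [← mul_pow]; simp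
  field_simp
  ring

end Pool.Agent.H21.GM174
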